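import Mathlib

set_option autoImplicit false
open Filter Topology Set

namespace Pool.Agent.Results.MP_fe8c84_an.Comparison

/-- The Fréchet superdifferential of `f` at `x`: the vectors `p` with
`limsup (f y - f x - p · (y - x)) / |y - x| ≤ 0` as `y → x` (Euclidean norm). -/
def superdiff (f : ℝ × ℝ → ℝ) (x : ℝ × ℝ) : Set (ℝ × ℝ) :=
  {p | ∀ ε : ℝ, 0 < ε → ∀ᶠ y in 𝓝 x,
    f y - f x - (p.1 * (y.1 - x.1) + p.2 * (y.2 - x.2)) ≤
      ε * Real.sqrt ((y.1 - x.1) ^ 2 + (y.2 - x.2) ^ 2)}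

/-- The Fréchet subdifferential of `f` at `x`: the vectors `p` with
`liminf (f y - f x - p · (y - x)) / |y - x| ≥ 0` as `y → x` (Euclidean norm). -/
def subdiff (f : ℝ × ℝ → ℝ) (x : ℝ × ℝ) : Set (ℝ × ℝ) :=
  {p | ∀ ε : ℝ, 0 < ε → ∀ᶠ y in 𝓝 x,
    -(ε * Real.sqrt ((y.1 - x.1) ^ 2 + (y.2 - x.2) ^ 2)) ≤
      f y - f x - (p.1 * (y.1 - x.1) + p.2 * (y.2 - x.2))}

/-- Continuous viscosity subsolutions of `m_t + (m_ρ)₊ ^ α m = 0` with datum `m₀`, as functions of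
`(t, ρ)` in the closed quadrant. -/
structure IsSubsolution (α : ℝ) (m₀ : ℝ → ℝ) (m : ℝ × ℝ → ℝ) : Prop where
  cont : ContinuousOn m (Ici 0 ×ˢ Ici 0)
  eqn : ∀ t ρ : ℝ, 0 < t → 0 < ρ → ∀ p ∈ superdiff m (t, ρ), p.1 + (max p.2 0) ^ α * m (t, ρ) ≤ 0
  initial : ∀ ρ : ℝ, 0 ≤ ρ → m (0, ρ) ≤ m₀ ρ
  boundary : ∀ t : ℝ, 0 ≤ t → m (t, 0) ≤ 0

/-- Continuous viscosity supersolutions. -/
structure IsSupersolution (α : ℝ) (m₀ : ℝ → ℝ) (m : ℝ × ℝ → ℝ) : Prop where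
  cont : ContinuousOn m (Ici 0 ×ˢ Ici 0)
  eqn : ∀ t ρ : ℝ, 0 < t → 0 < ρ → ∀ p ∈ subdiff m (t, ρ), 0 ≤ p.1 + (max p.2 0) ^ α * m (t, ρ)
  initial : ∀ ρ : ℝ, 0 ≤ ρ → m₀ ρ ≤ m (0, ρ)
  boundary : ∀ t : ℝ, 0 ≤ t → 0 ≤ m (t, 0)

/-- Viscosity solutions: both a subsolution and a supersolution. -/
def IsSolution (α : ℝ) (m₀ : ℝ → ℝ) (m : ℝ × ℝ → ℝ) : Prop :=
  IsSubsolution α m₀ m ∧ IsSupersolution α m₀ m

lemma sep_little_o {a b : ℝ → ℝ} {x p : ℝ × ℝ} (ha : HasDerivAt a p.1 x.1)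
    (hb : HasDerivAt b p.2 x.2) {ε : ℝ} (hε : 0 < ε) :
    ∀ᶠ y : ℝ × ℝ in 𝓝 x, |(a y.1 + b y.2) - (a x.1 + b x.2) -
      (p.1 * (y.1 - x.1) + p.2 * (y.2 - x.2))| ≤
        ε * Real.sqrt ((y.1 - x.1) ^ 2 + (y.2 - x.2) ^ 2) := by
  have h1 := (hasDerivAt_iff_isLittleO.1 ha).def (half_pos hε)
  have h2 := (hasDerivAt_iff_isLittleO.1 hb).def (half_pos hε)
  have h1' : ∀ᶠ y : ℝ × ℝ in 𝓝 x, ‖a y.1 - a x.1 - (y.1 - x.1) • p.1‖ ≤ ε / 2 * ‖y.1 - x.1‖ :=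
    (continuous_fst.tendsto x).eventually h1
  have h2' : ∀ᶠ y : ℝ × ℝ in 𝓝 x, ‖b y.2 - b x.2 - (y.2 - x.2) • p.2‖ ≤ ε / 2 * ‖y.2 - x.2‖ :=
    (continuous_snd.tendsto x).eventually h2
  filter_upwards [h1', h2'] with y hy1 hy2
  rw [Real.norm_eq_abs, Real.norm_eq_abs, smul_eq_mul] at hy1 hy2
  have k1 : |y.1 - x.1| ≤ Real.sqrt ((y.1 - x.1) ^ 2 + (y.2 - x.2) ^ 2) :=
    Real.abs_le_sqrt (by nlinarith [sq_nonneg (y.2 - x.2)])
  have k2 : |y.2 - x.2| ≤ Real.sqrt ((y.1 - x.1) ^ 2 + (y.2 - x.2) ^ 2) :=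
    Real.abs_le_sqrt (by nlinarith [sq_nonneg (y.1 - x.1)])
  have e : (a y.1 + b y.2) - (a x.1 + b x.2) - (p.1 * (y.1 - x.1) + p.2 * (y.2 - x.2)) =
      (a y.1 - a x.1 - (y.1 - x.1) * p.1) + (b y.2 - b x.2 - (y.2 - x.2) * p.2) := by ring
  rw [e]
  refine (abs_add_le _ _).trans ?_
  nlinarith

lemma mem_superdiff {f : ℝ × ℝ → ℝ} {a b : ℝ → ℝ} {x p : ℝ × ℝ} (ha : HasDerivAt a p.1 x.1)
    (hb : HasDerivAt b p.2 x.2)
    (h : ∀ᶠ y : ℝ × ℝ in 𝓝 x, f y - (a y.1 + b y.2) ≤ f x - (a x.1 + b x.2)) :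
    p ∈ superdiff f x := by
  intro ε hε
  filter_upwards [h, sep_little_o ha hb hε] with y h1 h2
  have := (abs_le.1 h2).2
  linarith

lemma mem_subdiff {f : ℝ × ℝ → ℝ} {a b : ℝ → ℝ} {x p : ℝ × ℝ} (ha : HasDerivAt a p.1 x.1)
    (hb : HasDerivAt b p.2 x.2)
    (h : ∀ᶠ y : ℝ × ℝ in 𝓝 x, f x - (a x.1 + b x.2) ≤ f y - (a y.1 + b y.2)) :
    p ∈ subdiff f x := by
  intro ε hε
  filter_upwards [h, sep_little_o ha hb hε] with y h1 h2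
  have := (abs_le.1 h2).1
  linarith

lemma hasDerivAt_barrier (δ K t₀ t : ℝ) :
    HasDerivAt (fun t => δ * Real.exp (K * (t - t₀))) (δ * (Real.exp (K * (t - t₀)) * K)) t := by
  have h : HasDerivAt (fun t => K * (t - t₀)) K t := by
    simpa using ((hasDerivAt_id t).sub_const t₀).const_mul K
  exact h.exp.const_mul δ

/-- Supersolutions with nonnegative datum are nonnegative. -/
lemma nonneg_of_super {α : ℝ} (hα : 0 < α) {m₀ : ℝ → ℝ} (h0 : ∀ ρ, 0 ≤ ρ → 0 ≤ m₀ ρ)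
    {M : ℝ × ℝ → ℝ} (hM : IsSupersolution α m₀ M) {t₀ ρ₀ : ℝ} (ht₀ : 0 ≤ t₀) (hρ₀ : 0 ≤ ρ₀) :
    0 ≤ M (t₀, ρ₀) := by
  by_contra hneg
  push Not at hneg
  set κ : ℝ := -M (t₀, ρ₀) with hκ
  have hκpos : 0 < κ := by linarith
  set δ : ℝ := κ / 4 with hδ
  have hδpos : 0 < δ := by positivity
  have hsub : Icc 0 (t₀ + 1) ×ˢ Icc 0 (ρ₀ + 1) ⊆ (Ici 0 ×ˢ Ici 0 : Set (ℝ × ℝ)) :=
    prod_mono Icc_subset_Ici_self Icc_subset_Ici_self
  have hcomp : IsCompact (Icc 0 (t₀ + 1) ×ˢ Icc 0 (ρ₀ + 1) : Set (ℝ × ℝ)) :=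
    isCompact_Icc.prod isCompact_Icc
  obtain ⟨A, hA⟩ := hcomp.exists_bound_of_continuousOn (hM.cont.mono hsub)
  obtain ⟨K, hK0, hK⟩ : ∃ K : ℝ, 0 < K ∧ A < δ * Real.exp K := by
    refine ⟨max 1 (A / δ), lt_of_lt_of_le one_pos (le_max_left _ _), ?_⟩
    have h1 : A / δ < Real.exp (max 1 (A / δ)) := by
      have := Real.add_one_le_exp (max 1 (A / δ))
      have h2 := le_max_right 1 (A / δ)
      linarith
    rwa [div_lt_iff₀ hδpos, mul_comm] at h1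
  set b₁ : ℝ → ℝ := fun t => δ * Real.exp (K * (t - t₀)) with hb₁
  set b₂ : ℝ → ℝ := fun t => δ * Real.exp (K * (t - ρ₀)) with hb₂
  have hb₁c : Continuous b₁ := by fun_prop
  have hb₂c : Continuous b₂ := by fun_prop
  have hb₁pos : ∀ t, 0 < b₁ t := fun t => by positivity
  have hb₂pos : ∀ t, 0 < b₂ t := fun t => by positivity
  have hcont : ContinuousOn (fun z : ℝ × ℝ => M z + (b₁ z.1 + b₂ z.2))
      (Icc 0 (t₀ + 1) ×ˢ Icc 0 (ρ₀ + 1)) :=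
    (hM.cont.mono hsub).add (by fun_prop)
  obtain ⟨z, hz, hmin⟩ := hcomp.exists_isMinOn
    ⟨(t₀, ρ₀), ⟨⟨ht₀, by linarith⟩, ⟨hρ₀, by linarith⟩⟩⟩ hcont
  have hval : M z + (b₁ z.1 + b₂ z.2) ≤ -κ / 2 := by
    have := hmin (show (t₀, ρ₀) ∈ (Icc 0 (t₀ + 1) ×ˢ Icc 0 (ρ₀ + 1) : Set (ℝ × ℝ)) from
      ⟨⟨ht₀, by linarith⟩, ⟨hρ₀, by linarith⟩⟩)
    simp only [mem_ofPred_eq] at this
    have e1 : b₁ t₀ = δ := by simp [hb₁]
    have e2 : b₂ ρ₀ = δ := by simp [hb₂]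
    rw [e1, e2] at this
    linarith
  obtain ⟨⟨hz1, hz2⟩, ⟨hz3, hz4⟩⟩ := hz
  have hMz := hA z ⟨⟨hz1, hz2⟩, ⟨hz3, hz4⟩⟩
  rw [Real.norm_eq_abs] at hMz
  have hMz' := (abs_le.1 hMz).1
  have ht1 : 0 < z.1 := by
    rcases hz1.lt_or_eq with h | h
    · exact h
    · exfalso
      have h1 := hM.initial z.2 hz3
      have h2 := h0 z.2 hz3
      have h3 : M z = M (0, z.2) := by rw [h]
      linarith [hb₁pos z.1, hb₂pos z.2]
  have ht2 : 0 < z.2 := by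
    rcases hz3.lt_or_eq with h | h
    · exact h
    · exfalso
      have h1 := hM.boundary z.1 hz1
      have h3 : M z = M (z.1, 0) := by rw [h]
      linarith [hb₁pos z.1, hb₂pos z.2]
  have ht3 : z.1 < t₀ + 1 := by
    rcases hz2.lt_or_eq with h | h
    · exact h
    · exfalso
      have e1 : b₁ z.1 = δ * Real.exp K := by simp [hb₁, h]
      linarith [hb₂pos z.2]
  have ht4 : z.2 < ρ₀ + 1 := by
    rcases hz4.lt_or_eq with h | h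
    · exact h
    · exfalso
      have e1 : b₂ z.2 = δ * Real.exp K := by simp [hb₂, h]
      linarith [hb₁pos z.1]
  have hnhds : (Icc 0 (t₀ + 1) ×ˢ Icc 0 (ρ₀ + 1) : Set (ℝ × ℝ)) ∈ 𝓝 z :=
    prod_mem_nhds (Icc_mem_nhds ht1 ht3) (Icc_mem_nhds ht2 ht4)
  have hd : (-(δ * (Real.exp (K * (z.1 - t₀)) * K)), -(δ * (Real.exp (K * (z.2 - ρ₀)) * K)))
      ∈ subdiff M z := by
    refine mem_subdiff (a := fun t => -b₁ t) (b := fun t => -b₂ t)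
      (hasDerivAt_barrier δ K t₀ z.1).neg (hasDerivAt_barrier δ K ρ₀ z.2).neg ?_
    filter_upwards [hnhds] with y hy
    have := hmin hy
    simp only [mem_ofPred_eq] at this
    linarith
  have h1 := hM.eqn z.1 z.2 ht1 ht2 _ hd
  simp only at h1
  have h2 : max (-(δ * (Real.exp (K * (z.2 - ρ₀)) * K))) 0 = 0 := by
    apply max_eq_right
    have : 0 < δ * (Real.exp (K * (z.2 - ρ₀)) * K) := by positivity
    linarith
  rw [h2, Real.zero_rpow hα.ne', zero_mul, add_zero] at h1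
  have : 0 < δ * (Real.exp (K * (z.1 - t₀)) * K) := by positivity
  linarith

lemma hasDerivAt_quad (s ε t : ℝ) :
    HasDerivAt (fun t => (t - s) ^ 2 / (2 * ε)) ((t - s) / ε) t := by
  have h : HasDerivAt (fun t => (t - s) ^ 2 / (2 * ε)) ((2 : ℕ) * (t - s) ^ (2 - 1) * 1 / (2 * ε)) t :=
    (((hasDerivAt_id t).sub_const s).pow 2).div_const (2 * ε)
  convert h using 1
  by_cases hε : ε = 0
  · simp [hε]
  · field_simp
    norm_num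
    ring

lemma hasDerivAt_quad' (s ε t : ℝ) :
    HasDerivAt (fun t => -((s - t) ^ 2 / (2 * ε))) ((s - t) / ε) t := by
  have h := (hasDerivAt_quad s ε t).neg
  have e : (fun t => -((s - t) ^ 2 / (2 * ε))) = -(fun t => (t - s) ^ 2 / (2 * ε)) := by
    funext t
    simp only [Pi.neg_apply]
    ring_nf
  have e2 : (s - t) / ε = -((t - s) / ε) := by ring
  rw [e, e2]
  exact h

/-- **Comparison principle** for continuous sub- and supersolutions, without uniform continuity. -/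
theorem comparison {α : ℝ} (hα : 0 < α) {m₀ : ℝ → ℝ} (h0 : ∀ ρ, 0 ≤ ρ → 0 ≤ m₀ ρ)
    {m M : ℝ × ℝ → ℝ} (hm : IsSubsolution α m₀ m) (hM : IsSupersolution α m₀ M)
    {t₀ ρ₀ : ℝ} (ht₀ : 0 ≤ t₀) (hρ₀ : 0 ≤ ρ₀) : m (t₀, ρ₀) ≤ M (t₀, ρ₀) := by
  by_contra hneg
  push Not at hneg
  have hMnonneg : ∀ z : ℝ × ℝ, 0 ≤ z.1 → 0 ≤ z.2 → 0 ≤ M z := fun z h1 h2 =>
    nonneg_of_super hα h0 hM h1 h2
  set κ : ℝ := m (t₀, ρ₀) - M (t₀, ρ₀) with hκ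
  have hκpos : 0 < κ := by linarith
  set δ : ℝ := κ / 4 with hδ
  have hδpos : 0 < δ := by positivity
  -- the compact boxes
  set Q : Set (ℝ × ℝ) := Icc 0 (t₀ + 2) ×ˢ Icc 0 (ρ₀ + 2) with hQ
  set P : Set (ℝ × ℝ) := Icc 0 (t₀ + 1) ×ˢ Icc 0 (ρ₀ + 1) with hP
  have hPQ : P ⊆ Q := prod_mono (Icc_subset_Icc le_rfl (by linarith))
    (Icc_subset_Icc le_rfl (by linarith))
  have hsub : Q ⊆ (Ici 0 ×ˢ Ici 0 : Set (ℝ × ℝ)) :=
    prod_mono Icc_subset_Ici_self Icc_subset_Ici_self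
  have hQc : IsCompact Q := isCompact_Icc.prod isCompact_Icc
  have hPc : IsCompact P := isCompact_Icc.prod isCompact_Icc
  have hmQ : ContinuousOn m Q := hm.cont.mono hsub
  have hMQ : ContinuousOn M Q := hM.cont.mono hsub
  obtain ⟨A₁, hA₁⟩ := hQc.exists_bound_of_continuousOn hmQ
  obtain ⟨A₂, hA₂⟩ := hQc.exists_bound_of_continuousOn hMQ
  set A : ℝ := max (A₁ + A₂) 1 with hA
  have hApos : 0 < A := lt_of_lt_of_le one_pos (le_max_right _ _)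
  have hAb : ∀ z ∈ Q, ∀ w ∈ Q, m z - M w ≤ A := by
    intro z hz w hw
    have h1 := hA₁ z hz
    have h2 := hA₂ w hw
    rw [Real.norm_eq_abs] at h1 h2
    have := (abs_le.1 h1).2
    have := (abs_le.1 h2).1
    have := le_max_left (A₁ + A₂) 1
    linarith
  obtain ⟨K, hK0, hK⟩ : ∃ K : ℝ, 0 < K ∧ A < δ * Real.exp K := by
    refine ⟨max 1 (A / δ), lt_of_lt_of_le one_pos (le_max_left _ _), ?_⟩
    have h1 : A / δ < Real.exp (max 1 (A / δ)) := by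
      have := Real.add_one_le_exp (max 1 (A / δ))
      have h2 := le_max_right 1 (A / δ)
      linarith
    rwa [div_lt_iff₀ hδpos, mul_comm] at h1
  set b₁ : ℝ → ℝ := fun t => δ * Real.exp (K * (t - t₀)) with hb₁
  set b₂ : ℝ → ℝ := fun t => δ * Real.exp (K * (t - ρ₀)) with hb₂
  have hb₁c : Continuous b₁ := by fun_prop
  have hb₂c : Continuous b₂ := by fun_prop
  have hb₁pos : ∀ t, 0 < b₁ t := fun t => by positivity
  have hb₂pos : ∀ t, 0 < b₂ t := fun t => by positivity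
  -- uniform continuity on the compact box
  obtain ⟨r₁, hr₁, hu₁⟩ := Metric.uniformContinuousOn_iff.1 (hQc.uniformContinuousOn_of_continuous hmQ)
    (κ / 2) (by positivity)
  obtain ⟨r₂, hr₂, hu₂⟩ := Metric.uniformContinuousOn_iff.1 (hQc.uniformContinuousOn_of_continuous hMQ)
    (κ / 2) (by positivity)
  set r : ℝ := min 1 (min r₁ r₂) with hr
  have hrpos : 0 < r := lt_min one_pos (lt_min hr₁ hr₂)
  have hr1 : r ≤ 1 := min_le_left _ _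
  have hrr₁ : r ≤ r₁ := (min_le_right _ _).trans (min_le_left _ _)
  have hrr₂ : r ≤ r₂ := (min_le_right _ _).trans (min_le_right _ _)
  set ε : ℝ := r ^ 2 / (2 * A) with hε
  have hεpos : 0 < ε := by positivity
  -- doubling of variables
  set Φ : (ℝ × ℝ) × (ℝ × ℝ) → ℝ := fun q => m q.1 - M q.2 -
    ((q.1.1 - q.2.1) ^ 2 / (2 * ε) + (q.1.2 - q.2.2) ^ 2 / (2 * ε)) - (b₁ q.1.1 + b₂ q.1.2) with hΦ
  have hΦc : ContinuousOn Φ (P ×ˢ Q) := by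
    have c1 : ContinuousOn (fun q : (ℝ × ℝ) × (ℝ × ℝ) => m q.1) (P ×ˢ Q) :=
      (hmQ.mono hPQ).comp continuousOn_fst fun q hq => hq.1
    have c2 : ContinuousOn (fun q : (ℝ × ℝ) × (ℝ × ℝ) => M q.2) (P ×ˢ Q) :=
      hMQ.comp continuousOn_snd fun q hq => hq.2
    exact ((c1.sub c2).sub (by fun_prop)).sub (by fun_prop)
  have hp0P : ((t₀, ρ₀) : ℝ × ℝ) ∈ P := ⟨⟨ht₀, by linarith⟩, ⟨hρ₀, by linarith⟩⟩
  obtain ⟨q, hq, hmax⟩ := (hPc.prod hQc).exists_isMaxOn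
    ⟨((t₀, ρ₀), (t₀, ρ₀)), ⟨hp0P, hPQ hp0P⟩⟩ hΦc
  obtain ⟨⟨t, ρ⟩, ⟨s, σ⟩⟩ := q
  obtain ⟨hqP, hqQ⟩ := hq
  have hΦ0 : Φ ((t₀, ρ₀), (t₀, ρ₀)) = κ / 2 := by
    have e1 : b₁ t₀ = δ := by simp [hb₁]
    have e2 : b₂ ρ₀ = δ := by simp [hb₂]
    simp only [hΦ, e1, e2, sub_self]
    rw [hδ]
    ring_nf
    rw [hκ]
    ring
  have hval : κ / 2 ≤ Φ ((t, ρ), (s, σ)) := by
    rw [← hΦ0]
    exact hmax (show ((t₀, ρ₀), (t₀, ρ₀)) ∈ P ×ˢ Q from ⟨hp0P, hPQ hp0P⟩)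
  have hval' : κ / 2 ≤ m (t, ρ) - M (s, σ) -
      ((t - s) ^ 2 / (2 * ε) + (ρ - σ) ^ 2 / (2 * ε)) - (b₁ t + b₂ ρ) := hval
  have hmM := hAb _ (hPQ hqP) _ hqQ
  simp only at hqP hqQ
  obtain ⟨⟨ht1, ht2⟩, ⟨hρ1, hρ2⟩⟩ := hqP
  obtain ⟨⟨hs1, hs2⟩, ⟨hσ1, hσ2⟩⟩ := hqQ
  simp only at ht1 ht2 hρ1 hρ2 hs1 hs2 hσ1 hσ2
  have hq1 : 0 ≤ (t - s) ^ 2 / (2 * ε) := by positivity
  have hq2 : 0 ≤ (ρ - σ) ^ 2 / (2 * ε) := by positivity
  have hd1 : |t - s| < r := by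
    have h1 : (t - s) ^ 2 / (2 * ε) < A := by linarith [hb₁pos t, hb₂pos ρ]
    rw [div_lt_iff₀ (by positivity)] at h1
    have h2 : A * (2 * ε) = r ^ 2 := by rw [hε]; field_simp
    rw [h2] at h1
    exact abs_lt_of_sq_lt_sq h1 hrpos.le
  have hd2 : |ρ - σ| < r := by
    have h1 : (ρ - σ) ^ 2 / (2 * ε) < A := by linarith [hb₁pos t, hb₂pos ρ]
    rw [div_lt_iff₀ (by positivity)] at h1
    have h2 : A * (2 * ε) = r ^ 2 := by rw [hε]; field_simp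
    rw [h2] at h1
    exact abs_lt_of_sq_lt_sq h1 hrpos.le
  have hd1' := abs_lt.1 hd1
  have hd2' := abs_lt.1 hd2
  -- the maximum point is interior
  have htop : t < t₀ + 1 := by
    rcases ht2.lt_or_eq with h | h
    · exact h
    · exfalso
      have e1 : b₁ t = δ * Real.exp K := by simp [hb₁, h]
      linarith [hb₂pos ρ]
  have hρtop : ρ < ρ₀ + 1 := by
    rcases hρ2.lt_or_eq with h | h
    · exact h
    · exfalso
      have e1 : b₂ ρ = δ * Real.exp K := by simp [hb₂, h]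
      linarith [hb₁pos t]
  have hQt : ((t, ρ) : ℝ × ℝ) ∈ Q := ⟨⟨ht1, by linarith⟩, ⟨hρ1, by linarith⟩⟩
  have hQs : ((s, σ) : ℝ × ℝ) ∈ Q := ⟨⟨hs1, by linarith⟩, ⟨hσ1, by linarith⟩⟩
  have hgap : κ / 2 < m (t, ρ) - M (s, σ) := by linarith [hb₁pos t, hb₂pos ρ]
  have htpos : 0 < t := by
    rcases ht1.lt_or_eq with h | h
    · exact h
    · exfalso
      have h1 : m (t, ρ) ≤ m₀ ρ := by rw [← h]; exact hm.initial ρ hρ1
      have h2 : m₀ ρ ≤ M (t, ρ) := by rw [← h]; exact hM.initial ρ hρ1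
      have h3 := hu₂ (t, ρ) hQt (s, σ) hQs (by
        rw [Prod.dist_eq, Real.dist_eq, Real.dist_eq]
        exact max_lt (hd1.trans_le hrr₂) (hd2.trans_le hrr₂))
      rw [Real.dist_eq] at h3
      have := (abs_lt.1 h3).2
      linarith
  have hspos : 0 < s := by
    rcases hs1.lt_or_eq with h | h
    · exact h
    · exfalso
      have h1 : m (s, σ) ≤ m₀ σ := by rw [← h]; exact hm.initial σ hσ1
      have h2 : m₀ σ ≤ M (s, σ) := by rw [← h]; exact hM.initial σ hσ1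
      have h3 := hu₁ (t, ρ) hQt (s, σ) hQs (by
        rw [Prod.dist_eq, Real.dist_eq, Real.dist_eq]
        exact max_lt (hd1.trans_le hrr₁) (hd2.trans_le hrr₁))
      rw [Real.dist_eq] at h3
      have := (abs_lt.1 h3).2
      linarith
  have hρpos : 0 < ρ := by
    rcases hρ1.lt_or_eq with h | h
    · exact h
    · exfalso
      have h1 : m (t, ρ) ≤ 0 := by rw [← h]; exact hm.boundary t ht1
      have h2 := hMnonneg (s, σ) hs1 hσ1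
      linarith
  have hσpos : 0 < σ := by
    rcases hσ1.lt_or_eq with h | h
    · exact h
    · exfalso
      have h1 : m (s, σ) ≤ 0 := by rw [← h]; exact hm.boundary s hs1
      have h2 := hMnonneg (s, σ) hs1 hσ1
      have h3 := hu₁ (t, ρ) hQt (s, σ) hQs (by
        rw [Prod.dist_eq, Real.dist_eq, Real.dist_eq]
        exact max_lt (hd1.trans_le hrr₁) (hd2.trans_le hrr₁))
      rw [Real.dist_eq] at h3
      have := (abs_lt.1 h3).2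
      linarith
  -- the subsolution inequality
  set β₁ : ℝ := δ * (Real.exp (K * (t - t₀)) * K) with hβ₁
  set β₂ : ℝ := δ * (Real.exp (K * (ρ - ρ₀)) * K) with hβ₂
  have hβ₁pos : 0 < β₁ := by positivity
  have hβ₂pos : 0 < β₂ := by positivity
  have hsup : ((t - s) / ε + β₁, (ρ - σ) / ε + β₂) ∈ superdiff m (t, ρ) := by
    refine mem_superdiff (a := fun x => (x - s) ^ 2 / (2 * ε) + b₁ x)
      (b := fun x => (x - σ) ^ 2 / (2 * ε) + b₂ x)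
      ((hasDerivAt_quad s ε t).add (hasDerivAt_barrier δ K t₀ t))
      ((hasDerivAt_quad σ ε ρ).add (hasDerivAt_barrier δ K ρ₀ ρ)) ?_
    have hn : P ∈ 𝓝 ((t, ρ) : ℝ × ℝ) :=
      prod_mem_nhds (Icc_mem_nhds htpos htop) (Icc_mem_nhds hρpos hρtop)
    filter_upwards [hn] with y hy
    have h1 : Φ (y, (s, σ)) ≤ Φ ((t, ρ), (s, σ)) :=
      hmax (show (y, (s, σ)) ∈ P ×ˢ Q from ⟨hy, hQs⟩)
    simp only [hΦ] at h1
    linarith
  -- the supersolution inequality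
  have hinf : ((t - s) / ε, (ρ - σ) / ε) ∈ subdiff M (s, σ) := by
    refine mem_subdiff (a := fun x => -((t - x) ^ 2 / (2 * ε)))
      (b := fun x => -((ρ - x) ^ 2 / (2 * ε)))
      (hasDerivAt_quad' t ε s) (hasDerivAt_quad' ρ ε σ) ?_
    have hn : Q ∈ 𝓝 ((s, σ) : ℝ × ℝ) :=
      prod_mem_nhds (Icc_mem_nhds hspos (by linarith)) (Icc_mem_nhds hσpos (by linarith))
    filter_upwards [hn] with y hy
    have h1 : Φ ((t, ρ), y) ≤ Φ ((t, ρ), (s, σ)) :=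
      hmax (show ((t, ρ), y) ∈ P ×ˢ Q from ⟨⟨⟨ht1, ht2⟩, ⟨hρ1, hρ2⟩⟩, hy⟩)
    simp only [hΦ] at h1
    linarith
  have g1 := hm.eqn t ρ htpos hρpos _ hsup
  have g2 := hM.eqn s σ hspos hσpos _ hinf
  simp only at g1 g2
  have hM0 := hMnonneg (s, σ) hs1 hσ1
  have g3 : (max ((ρ - σ) / ε) 0) ^ α ≤ (max ((ρ - σ) / ε + β₂) 0) ^ α :=
    Real.rpow_le_rpow (le_max_right _ _) (max_le_max (by linarith) le_rfl) hα.le
  have g4 : 0 ≤ (max ((ρ - σ) / ε) 0) ^ α := Real.rpow_nonneg (le_max_right _ _) _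
  have g5 : (max ((ρ - σ) / ε) 0) ^ α * M (s, σ) ≤ (max ((ρ - σ) / ε + β₂) 0) ^ α * m (t, ρ) :=
    mul_le_mul g3 (by linarith) hM0 (g4.trans g3)
  linarith

/-- **Theorem.** Let `0 < α < 1` and let `m₀ : [0, ∞) → [0, ∞)` be continuous and nondecreasing with
`m₀ 0 = 0`. Every continuous viscosity subsolution lies below every continuous viscosity
supersolution on the closed quadrant; in particular there is at most one viscosity solution. -/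
theorem result (α : ℝ) (hα : 0 < α) (_hα1 : α < 1) (m₀ : ℝ → ℝ) (_hc : ContinuousOn m₀ (Ici 0))
    (hmono : MonotoneOn m₀ (Ici 0)) (h0 : m₀ 0 = 0) :
    (∀ m M : ℝ × ℝ → ℝ, IsSubsolution α m₀ m → IsSupersolution α m₀ M →
      ∀ t ρ : ℝ, 0 ≤ t → 0 ≤ ρ → m (t, ρ) ≤ M (t, ρ)) ∧
    (∀ m₁ m₂ : ℝ × ℝ → ℝ, IsSolution α m₀ m₁ → IsSolution α m₀ m₂ →
      ∀ t ρ : ℝ, 0 ≤ t → 0 ≤ ρ → m₁ (t, ρ) = m₂ (t, ρ)) := by
  have hnn : ∀ ρ, 0 ≤ ρ → 0 ≤ m₀ ρ := by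
    intro ρ hρ
    rw [← h0]
    exact hmono (mem_Ici.2 le_rfl) (mem_Ici.2 hρ) hρ
  refine ⟨fun m M hm hM t ρ ht hρ => comparison hα hnn hm hM ht hρ,
    fun m₁ m₂ h₁ h₂ t ρ ht hρ => le_antisymm (comparison hα hnn h₁.1 h₂.2 ht hρ)
      (comparison hα hnn h₂.1 h₁.2 ht hρ)⟩

end Pool.Agent.Results.MP_fe8c84_an.Comparison
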